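import Pool.Agent.helper54.TS.Spec

/-!
Row ts:CRS (MP_2b41e9_nt): the coarse theorem.
-/

set_option autoImplicit false

open Polynomial Finset

noncomputable section

namespace Pool.Agent.TS

open Pool.Agent.PSA (IsSalem Indep Fac)

/-- the invariant of the induction -/
structure CRS_P {K : Type} [Field K] (ι : K →+* ℝ) (β : K) (p : ℕ) (b : ℕ → ℝ) (ε : ℝ)
    (κ θ : ℕ → ℝ) : Prop where
  sys : Sys ι β p b κ θ
  bad : ∀ n, κ n < 1 → 1 - ε < κ n ∧ Good b κ θ n ∧ ¬ Good b (fun _ => 1) (fun _ => 1) n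
  good : ∀ n, Good b (fun _ => 1) (fun _ => 1) n → Good b κ θ n

theorem CRS (hCTR : CTR_stmt) (hBLK : BLK_stmt) (hNZR : NZR_stmt) (hSPL : SPL_stmt)
    (hGDP : GDP_stmt) : CRS_stmt := by
  classical
  intro K _ ι β σ k φ w hSF p b hsys1 ε hε
  have key : ∀ (N : ℕ) (κ θ : ℕ → ℝ), CRS_P ι β p b ε κ θ →
      ((range p).filter fun j => ¬ Good b κ θ j).card ≤ N →
      ∃ κ' θ' : ℕ → ℝ, CRS_P ι β p b ε κ' θ' ∧ ∀ n, Good b κ' θ' n := by
    intro N
    induction N with
    | zero =>
      intro κ θ hP hc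
      refine ⟨κ, θ, hP, fun n => ?_⟩
      have h1 : (range p).filter (fun j => ¬ Good b κ θ j) = ∅ := card_eq_zero.1 (Nat.le_zero.1 hc)
      have h2 : n % p < p := Nat.mod_lt _ hP.sys.hp
      have h3 : Good b κ θ (n % p) := by
        by_contra h
        have : n % p ∈ (range p).filter (fun j => ¬ Good b κ θ j) :=
          mem_filter.2 ⟨mem_range.2 h2, h⟩
        rw [h1] at this
        exact absurd this (notMem_empty _)
      exact hGDP K ι β p b κ θ hP.sys (n % p) n (Nat.mod_mod n p) h3
    | succ N ih =>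
      intro κ θ hP hc
      by_cases hall : ∀ j, j < p → Good b κ θ j
      · exact ⟨κ, θ, hP, fun n => hGDP K ι β p b κ θ hP.sys (n % p) n (Nat.mod_mod n p)
          (hall _ (Nat.mod_lt _ hP.sys.hp))⟩
      · push Not at hall
        obtain ⟨i, hip, hbad⟩ := hall
        have hκi : κ i = 1 := by
          rcases hP.sys.ht i with h | h
          · exact h.1
          · exact absurd (hP.bad i (h.1.trans h.2)).2.1 hbad
        obtain ⟨dg, S, δ, hblk⟩ := hBLK K ι β p b κ θ hP.sys i hκi
        have hnz := hNZR K ι β p b κ θ hP.sys i hκi hbad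
        have hctr := hCTR K ι β σ k φ w hSF (fun y => orb b κ θ i y p) dg S δ hblk hnz
        obtain ⟨κ', θ', hs, h1, h2, h3, h4, h5, h6⟩ :=
          hSPL K ι β p b κ θ hP.sys i hκi hbad hctr ε hε
        have hP' : CRS_P ι β p b ε κ' θ' := by
          refine ⟨hs, fun n hn => ?_, fun n hn => h6 n (hP.good n hn)⟩
          by_cases hni : n % p = i % p
          · refine ⟨?_, hGDP K ι β p b κ' θ' hs i n hni.symm h5, fun hg => ?_⟩
            · rw [(h4 n hni).1]
              exact h2
            · exact hbad (hGDP K ι β p b κ θ hP.sys n i hni (hP.good n hg))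
          · rw [(h3 n hni).1] at hn ⊢
            obtain ⟨g1, g2, g3⟩ := hP.bad n hn
            exact ⟨g1, h6 n g2, g3⟩
        refine ih κ' θ' hP' ?_
        have hlt : ((range p).filter fun j => ¬ Good b κ' θ' j).card <
            ((range p).filter fun j => ¬ Good b κ θ j).card := by
          refine card_lt_card ⟨?_, ?_⟩
          · intro j hj
            rw [mem_filter] at hj ⊢
            exact ⟨hj.1, fun hg => hj.2 (h6 j hg)⟩
          · intro hsub
            have hi : i ∈ (range p).filter fun j => ¬ Good b κ θ j :=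
              mem_filter.2 ⟨mem_range.2 hip, hbad⟩
            exact (mem_filter.1 (hsub hi)).2 h5
        omega
  obtain ⟨κ, θ, hP, hg⟩ := key _ (fun _ => 1) (fun _ => 1)
    ⟨hsys1, fun n hn => absurd hn (lt_irrefl _), fun n hn => hn⟩ le_rfl
  exact ⟨κ, θ, hP.sys, fun n hn => ⟨(hP.bad n hn).1, (hP.bad n hn).2.2⟩, hg⟩

end Pool.Agent.TS
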